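import Mathlib

/-!
# Weights on `ℂⁿ` and holomorphic functions of polynomial growth in `1/δ`
-/

set_option autoImplicit false

namespace Pool.Agent.Work.MP_6079fc_an

open Filter Topology

/-- The standing assumptions on the weight `δ` on `ℂⁿ` (continuity follows from the Lipschitz condition;
`-log δ` is continuous where `δ > 0`, so it is plurisubharmonic there if and only if it satisfies the
sub-mean value inequality on all closed complex discs in this set). -/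
structure IsWeight {n : ℕ} (δ : EuclideanSpace ℂ (Fin n) → ℝ) : Prop where
  nonneg : ∀ s, 0 ≤ δ s
  lipschitz : ∃ K : NNReal, LipschitzWith K δ
  lim : Tendsto δ (cocompact _) (𝓝 0)
  bdd : ∃ C : ℝ, ∀ s, ‖s‖ * δ s ≤ C
  psh : ∀ a b : EuclideanSpace ℂ (Fin n), (∀ ζ : ℂ, ‖ζ‖ ≤ 1 → 0 < δ (a + ζ • b)) →
    -Real.log (δ a) ≤ Real.circleAverage (fun ζ : ℂ => -Real.log (δ (a + ζ • b))) 0 1

/-- `u` belongs to `𝒪(δ)`. -/
def MemO {n : ℕ} (δ : EuclideanSpace ℂ (Fin n) → ℝ) (u : EuclideanSpace ℂ (Fin n) → ℂ) : Prop :=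
  DifferentiableOn ℂ u {s | 0 < δ s} ∧ ∃ (N : ℕ) (C : ℝ), ∀ s, 0 < δ s → δ s ^ N * ‖u s‖ ≤ C

end Pool.Agent.Work.MP_6079fc_an
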