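import Mathlib

/-!
# The functions of one variable

`T z = min (Re exp z) (Re exp (i z))`, `dl z = exp (-|z| + min 0 (T z))`, `D z = exp z - exp (i z)`, and
`gg z = (exp (-exp z) - exp (-exp (i z))) / D z`.
-/

set_option autoImplicit false

namespace Pool.Agent.Work.MP_6079fc_an

open Complex


open Complex

/-- The minimum of the real parts of `exp z` and `exp (i z)`. -/
noncomputable def T (z : ℂ) : ℝ := min (exp z).re (exp (I * z)).re

/-- The weight. -/
noncomputable def dl (z : ℂ) : ℝ := Real.exp (-‖z‖ + min 0 (T z))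

/-- The entire function `(exp w - 1) / w`. -/
noncomputable def ph : ℂ → ℂ := dslope exp 0

/-- Shorthand for `exp z - exp (i z)`. -/
noncomputable def D (z : ℂ) : ℂ := exp z - exp (I * z)

theorem exp_lip {R : ℝ} {z w : ℂ} (hz : ‖z‖ ≤ R) (hw : ‖w‖ ≤ R) :
    ‖exp z - exp w‖ ≤ Real.exp R * ‖z - w‖ := by
  have hconv : Convex ℝ (Metric.closedBall (0 : ℂ) R) := convex_closedBall _ _
  refine Convex.norm_image_sub_le_of_norm_deriv_le (f := exp) (s := Metric.closedBall (0 : ℂ) R)
    (fun x _ => Complex.differentiable_exp x) ?_ hconv ?_ ?_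
  · intro x hx
    rw [Complex.deriv_exp, Complex.norm_exp]
    apply Real.exp_le_exp.2
    have h1 : ‖x‖ ≤ R := by simpa using hx
    exact le_trans (Complex.re_le_norm x) h1
  · simpa using hw
  · simpa using hz

theorem exp_lip' {R : ℝ} {z w : ℂ} (hz : ‖z‖ ≤ R) (hw : ‖w‖ ≤ R) :
    ‖exp (I * z) - exp (I * w)‖ ≤ Real.exp R * ‖z - w‖ := by
  have h := exp_lip (R := R) (z := I * z) (w := I * w) (by simpa using hz) (by simpa using hw)
  rw [← mul_sub, norm_mul, norm_I, one_mul] at h
  exact h

theorem real_exp_lip {s t : ℝ} (hs : s ≤ 0) (ht : t ≤ 0) :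
    |Real.exp s - Real.exp t| ≤ |s - t| := by
  wlog hst : t ≤ s with H
  · rw [abs_sub_comm, abs_sub_comm s t]
    exact H ht hs (le_of_lt (not_le.1 hst))
  · have h1 : Real.exp t ≤ Real.exp s := Real.exp_le_exp.2 hst
    rw [abs_of_nonneg (by linarith), abs_of_nonneg (by linarith)]
    have h2 : (t - s) + 1 ≤ Real.exp (t - s) := Real.add_one_le_exp _
    have h3 : Real.exp t = Real.exp s * Real.exp (t - s) := by
      rw [← Real.exp_add]; congr 1; ring
    have h4 : Real.exp s ≤ 1 := Real.exp_le_one_iff.2 hs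
    have h5 : 0 < Real.exp s := Real.exp_pos s
    have h6 : Real.exp (t - s) ≤ 1 := Real.exp_le_one_iff.2 (by linarith)
    rw [h3]
    nlinarith

theorem T_lip {R : ℝ} {z w : ℂ} (hz : ‖z‖ ≤ R) (hw : ‖w‖ ≤ R) :
    |T z - T w| ≤ Real.exp R * ‖z - w‖ := by
  unfold T
  refine le_trans (abs_min_sub_min_le_max _ _ _ _) (max_le ?_ ?_)
  · refine le_trans ?_ (exp_lip hz hw)
    rw [← Complex.sub_re]
    exact Complex.abs_re_le_norm _
  · refine le_trans ?_ (exp_lip' hz hw)
    rw [← Complex.sub_re]
    exact Complex.abs_re_le_norm _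

theorem dl_lip (z w : ℂ) : |dl z - dl w| ≤ 2 * ‖z - w‖ := by
  wlog hzw : ‖z‖ ≤ ‖w‖ with H
  · rw [abs_sub_comm, norm_sub_rev]
    exact H w z (le_of_lt (not_le.1 hzw))
  · unfold dl
    rw [Real.exp_add, Real.exp_add]
    have e1 : |Real.exp (-‖z‖) - Real.exp (-‖w‖)| ≤ ‖z - w‖ := by
      refine le_trans (real_exp_lip (by simp) (by simp)) ?_
      have := abs_norm_sub_norm_le z w
      rw [abs_sub_comm] at this
      calc |-‖z‖ - -‖w‖| = |‖w‖ - ‖z‖| := by congr 1; ring
        _ ≤ _ := this
    have e2 : |Real.exp (min 0 (T z)) - Real.exp (min 0 (T w))| ≤ Real.exp ‖w‖ * ‖z - w‖ := by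
      refine le_trans (real_exp_lip (min_le_left _ _) (min_le_left _ _)) ?_
      refine le_trans ?_ (T_lip hzw le_rfl)
      refine le_trans (abs_min_sub_min_le_max _ _ _ _) ?_
      simp
    have e3 : 0 < Real.exp (min 0 (T z)) := Real.exp_pos _
    have e4 : Real.exp (min 0 (T z)) ≤ 1 := Real.exp_le_one_iff.2 (min_le_left _ _)
    have e5 : Real.exp (-‖w‖) * Real.exp ‖w‖ = 1 := by rw [← Real.exp_add]; simp
    have e6 : 0 < Real.exp (-‖w‖) := Real.exp_pos _
    calc |Real.exp (-‖z‖) * Real.exp (min 0 (T z)) - Real.exp (-‖w‖) * Real.exp (min 0 (T w))|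
        = |(Real.exp (-‖z‖) - Real.exp (-‖w‖)) * Real.exp (min 0 (T z)) +
          Real.exp (-‖w‖) * (Real.exp (min 0 (T z)) - Real.exp (min 0 (T w)))| := by
            congr 1; ring
      _ ≤ |(Real.exp (-‖z‖) - Real.exp (-‖w‖)) * Real.exp (min 0 (T z))| +
          |Real.exp (-‖w‖) * (Real.exp (min 0 (T z)) - Real.exp (min 0 (T w)))| := abs_add_le _ _
      _ = |Real.exp (-‖z‖) - Real.exp (-‖w‖)| * Real.exp (min 0 (T z)) +
          Real.exp (-‖w‖) * |Real.exp (min 0 (T z)) - Real.exp (min 0 (T w))| := by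
            rw [abs_mul, abs_mul, abs_of_pos e3, abs_of_pos e6]
      _ ≤ ‖z - w‖ * 1 + Real.exp (-‖w‖) * (Real.exp ‖w‖ * ‖z - w‖) := by gcongr
      _ = 2 * ‖z - w‖ := by rw [← mul_assoc, e5]; ring

theorem dl_pos (z : ℂ) : 0 < dl z := Real.exp_pos _

theorem dl_le (z : ℂ) : dl z ≤ Real.exp (-‖z‖) := by
  unfold dl
  apply Real.exp_le_exp.2
  have : min 0 (T z) ≤ 0 := min_le_left _ _
  linarith

theorem ph_diff : Differentiable ℂ ph := by
  rw [← differentiableOn_univ]
  exact (Complex.differentiableOn_dslope (f := exp) (c := 0) Filter.univ_mem).2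
    Complex.differentiable_exp.differentiableOn

theorem ph_mul (w : ℂ) : w * ph w = exp w - 1 := by
  have := sub_smul_dslope exp (0 : ℂ) w
  simpa [ph] using this

theorem ph_bound {w : ℂ} (hw : ‖w‖ ≤ 1) : ‖ph w‖ ≤ 2 := by
  by_cases h : w = 0
  · subst h
    simp [ph]
  · have h1 := ph_mul w
    have h2 : ‖w‖ * ‖ph w‖ ≤ 2 * ‖w‖ := by
      rw [← norm_mul, h1]
      exact Complex.norm_exp_sub_one_le hw
    have h3 : 0 < ‖w‖ := norm_pos_iff.2 h
    nlinarith

theorem D_diff : Differentiable ℂ D := by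
  unfold D
  fun_prop


theorem mean_value (F : ℂ → ℂ) (hF : Differentiable ℂ F) (a b : ℂ) :
    ∫ θ in (0:ℝ)..(2 * Real.pi), F (a + Complex.exp ((θ : ℂ) * Complex.I) * b) =
      (2 * Real.pi : ℝ) * F a := by
  have hG : Differentiable ℂ (fun ζ : ℂ => F (a + ζ * b)) := by fun_prop
  have h := DiffContOnCl.circleAverage (f := fun ζ : ℂ => F (a + ζ * b)) (c := 0) (R := 1)
    hG.diffContOnCl
  rw [Real.circleAverage_def] at h
  simp only [circleMap, zero_add, Complex.ofReal_one, one_mul, zero_mul, add_zero] at h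
  have hpi : ((2 * Real.pi : ℝ) : ℂ) ≠ 0 := by
    exact_mod_cast (by positivity : (2 * Real.pi : ℝ) ≠ 0)
  rw [← h]
  rw [Complex.real_smul, ← mul_assoc]
  push_cast
  push_cast at hpi
  rw [mul_inv_cancel₀ hpi, one_mul]

theorem mean_value_re (F : ℂ → ℂ) (hF : Differentiable ℂ F) (a b : ℂ) :
    ∫ θ in (0:ℝ)..(2 * Real.pi), (F (a + Complex.exp ((θ : ℂ) * Complex.I) * b)).re =
      2 * Real.pi * (F a).re := by
  have h := mean_value F hF a b
  have hc : Continuous fun θ : ℝ => F (a + Complex.exp ((θ : ℂ) * Complex.I) * b) := by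
    have := hF.continuous
    fun_prop
  have h2 : (∫ θ in (0:ℝ)..(2 * Real.pi), F (a + Complex.exp ((θ : ℂ) * Complex.I) * b)).re =
      ∫ θ in (0:ℝ)..(2 * Real.pi), (F (a + Complex.exp ((θ : ℂ) * Complex.I) * b)).re := by
    have := Complex.reCLM.intervalIntegral_comp_comm (μ := MeasureTheory.volume)
      (hc.intervalIntegrable 0 (2 * Real.pi))
    simpa using this.symm
  rw [← h2, h]
  rw [Complex.re_ofReal_mul]

theorem cont_path (a b : ℂ) : Continuous fun θ : ℝ => a + Complex.exp ((θ : ℂ) * Complex.I) * b := by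
  fun_prop

theorem T_cont : Continuous T := by
  unfold T
  fun_prop

theorem psh_one (G : ℂ → ℂ) (hG : Differentiable ℂ G) (hTG : ∀ z, min 0 (T z) ≤ (G z).re)
    (a b : ℂ) :
    ∫ θ in (0:ℝ)..(2 * Real.pi), min 0 (T (a + Complex.exp ((θ : ℂ) * Complex.I) * b)) ≤
      2 * Real.pi * (G a).re := by
  have hc := cont_path a b
  have hTc := T_cont
  have hGc := hG.continuous
  have hpi : (0:ℝ) ≤ 2 * Real.pi := by positivity
  rw [← mean_value_re G hG a b]
  apply intervalIntegral.integral_mono hpi
  · exact (by fun_prop : Continuous _).intervalIntegrable _ _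
  · exact (by fun_prop : Continuous _).intervalIntegrable _ _
  · intro θ
    exact hTG _

theorem psh_two (a b : ℂ) :
    ∫ θ in (0:ℝ)..(2 * Real.pi), min 0 (T (a + Complex.exp ((θ : ℂ) * Complex.I) * b)) ≤
      2 * Real.pi * min 0 (T a) := by
  have k1 := psh_one (fun _ => 0) (by fun_prop) (fun z => by simp) a b
  have k2 := psh_one exp Complex.differentiable_exp
    (fun z => le_trans (min_le_right _ _) (min_le_left _ _)) a b
  have k3 := psh_one (fun z => exp (I * z)) (by fun_prop)
    (fun z => le_trans (min_le_right _ _) (min_le_right _ _)) a b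
  rw [Complex.zero_re] at k1
  unfold T at k1 k2 k3 ⊢
  rcases le_total (exp a).re (exp (I * a)).re with h | h
  · rw [min_eq_left h]
    rcases le_total 0 (exp a).re with h' | h'
    · rw [min_eq_left h']; exact k1
    · rw [min_eq_right h']; exact k2
  · rw [min_eq_right h]
    rcases le_total 0 (exp (I * a)).re with h' | h'
    · rw [min_eq_left h']; exact k1
    · rw [min_eq_right h']; exact k3

/-- The function locally but not globally in the ideal. -/
noncomputable def gg (z : ℂ) : ℂ := -(exp (-exp z) * ph (D z))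

theorem gg_diff : Differentiable ℂ gg := by
  unfold gg
  have h1 := ph_diff
  have h2 := D_diff
  have h3 : Differentiable ℂ fun z => ph (D z) := h1.comp h2
  fun_prop

theorem gg_mul (z : ℂ) : D z * gg z = exp (-exp z) - exp (-exp (I * z)) := by
  unfold gg
  have h := ph_mul (D z)
  have h2 : exp (-exp z) * exp (D z) = exp (-exp (I * z)) := by
    rw [← Complex.exp_add]
    congr 1
    unfold D
    ring
  calc D z * -(exp (-exp z) * ph (D z)) = -(exp (-exp z) * (D z * ph (D z))) := by ring
    _ = -(exp (-exp z) * (exp (D z) - 1)) := by rw [h]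
    _ = _ := by rw [mul_sub, h2]; ring

theorem f1_bound (z : ℂ) : dl z * ‖exp (-exp z)‖ ≤ 1 := by
  rw [Complex.norm_exp, dl, ← Real.exp_add]
  apply Real.exp_le_one_iff.2
  have h1 : min 0 (T z) ≤ (exp z).re := le_trans (min_le_right _ _) (min_le_left _ _)
  have h2 := norm_nonneg z
  rw [Complex.neg_re]
  linarith

theorem f2_bound (z : ℂ) : dl z * ‖exp (-exp (I * z))‖ ≤ 1 := by
  rw [Complex.norm_exp, dl, ← Real.exp_add]
  apply Real.exp_le_one_iff.2
  have h1 : min 0 (T z) ≤ (exp (I * z)).re := le_trans (min_le_right _ _) (min_le_right _ _)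
  have h2 := norm_nonneg z
  rw [Complex.neg_re]
  linarith

theorem gg_bound (z : ℂ) : dl z * ‖gg z‖ ≤ 2 := by
  have h0 := dl_pos z
  rcases le_total ‖D z‖ 1 with h | h
  · unfold gg
    rw [norm_neg, norm_mul, ← mul_assoc]
    have h1 := f1_bound z
    have h2 := ph_bound h
    have h3 : 0 ≤ dl z * ‖exp (-exp z)‖ := by positivity
    nlinarith [norm_nonneg (ph (D z))]
  · have h1 := gg_mul z
    have h2 : ‖D z‖ * ‖gg z‖ ≤ ‖exp (-exp z)‖ + ‖exp (-exp (I * z))‖ := by
      rw [← norm_mul, h1]
      exact norm_sub_le _ _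
    have h3 : ‖gg z‖ ≤ ‖D z‖ * ‖gg z‖ := by nlinarith [norm_nonneg (gg z)]
    have h4 := f1_bound z
    have h5 := f2_bound z
    calc dl z * ‖gg z‖ ≤ dl z * (‖exp (-exp z)‖ + ‖exp (-exp (I * z))‖) := by
          apply mul_le_mul_of_nonneg_left _ h0.le
          linarith
      _ ≤ 2 := by rw [mul_add]; linarith

theorem ph_bound' (w : ℂ) : ‖ph w‖ ≤ Real.exp ‖w‖ := by
  by_cases h : w = 0
  · subst h
    simp [ph]
  · have h1 := ph_mul w
    have h2 : ‖w‖ * ‖ph w‖ ≤ Real.exp ‖w‖ * ‖w‖ := by
      rw [← norm_mul, h1]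
      have h3 := exp_lip (R := ‖w‖) (z := w) (w := 0) le_rfl (by simp)
      rwa [Complex.exp_zero, sub_zero] at h3
    have h3 : 0 < ‖w‖ := norm_pos_iff.2 h
    nlinarith

/-- Variation of `D` on the balls of radius `ε r`. -/
theorem D_var {ε r : ℝ} (hε : 0 < ε) {s z w : ℂ} (hr : r ≤ Real.exp (-‖s‖)) (hz : ‖z - s‖ < ε * r)
    (hw : ‖w - s‖ < ε * r) : ‖D z - D w‖ ≤ 4 * ε * Real.exp ε := by
  have hd1 : r ≤ 1 := le_trans hr (Real.exp_le_one_iff.2 (by simp))
  have hεr : ε * r ≤ ε := by nlinarith
  have hz1 : ‖z‖ ≤ ‖s‖ + ε := by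
    have := norm_le_norm_add_norm_sub' z s
    linarith
  have hw1 : ‖w‖ ≤ ‖s‖ + ε := by
    have := norm_le_norm_add_norm_sub' w s
    linarith
  have h1 := exp_lip hz1 hw1
  have h2 := exp_lip' hz1 hw1
  have h3 : ‖z - w‖ ≤ 2 * ε * Real.exp (-‖s‖) := by
    have h30 : z - w = (z - s) - (w - s) := by ring
    rw [h30]
    refine le_trans (norm_sub_le _ _) ?_
    nlinarith
  have h4 : Real.exp (‖s‖ + ε) * ‖z - w‖ ≤ 2 * ε * Real.exp ε := by
    calc Real.exp (‖s‖ + ε) * ‖z - w‖ ≤ Real.exp (‖s‖ + ε) * (2 * ε * Real.exp (-‖s‖)) := by gcongr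
      _ = 2 * ε * (Real.exp (‖s‖ + ε) * Real.exp (-‖s‖)) := by ring
      _ = 2 * ε * Real.exp ε := by
        rw [← Real.exp_add]
        congr 2
        ring
  have h8 : D z - D w = (exp z - exp w) - (exp (I * z) - exp (I * w)) := by
    unfold D; ring
  rw [h8]
  refine le_trans (norm_sub_le _ _) ?_
  linarith

theorem local_aux {ε : ℝ} (hε : 0 < ε) (s : ℂ) {r : ℝ} (hr : r ≤ Real.exp (-‖s‖)) :
    ∃ u1 u2 : ℂ → ℂ,
    DifferentiableOn ℂ u1 (Metric.ball s (ε * r)) ∧
    DifferentiableOn ℂ u2 (Metric.ball s (ε * r)) ∧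
    (∀ z ∈ Metric.ball s (ε * r),
      gg z = u1 z * exp (-exp z) + u2 z * exp (-exp (I * z))) ∧
    (∀ z ∈ Metric.ball s (ε * r), ‖u1 z‖ < Real.exp (1 + 4 * ε * Real.exp ε) + 1) ∧
    (∀ z ∈ Metric.ball s (ε * r), ‖u2 z‖ < Real.exp (1 + 4 * ε * Real.exp ε) + 1) := by
  have hE : 0 < Real.exp (1 + 4 * ε * Real.exp ε) := Real.exp_pos _
  by_cases h : ∃ w ∈ Metric.ball s (ε * r), ‖D w‖ ≤ 1
  · obtain ⟨w, hw, hw2⟩ := h
    refine ⟨fun z => -ph (D z), fun _ => 0, ?_, ?_, ?_, ?_, ?_⟩
    · exact ((ph_diff.comp D_diff).neg).differentiableOn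
    · exact differentiableOn_const _
    · intro z _
      unfold gg
      ring
    · intro z hz
      rw [mem_ball_iff_norm] at hz hw
      have h1 := D_var hε hr hz hw
      have h2 : ‖D z‖ ≤ 1 + 4 * ε * Real.exp ε := by
        have h20 : D z = (D z - D w) + D w := by ring
        rw [h20]
        refine le_trans (norm_add_le _ _) ?_
        linarith
      rw [norm_neg]
      have h3 := ph_bound' (D z)
      have h4 := Real.exp_le_exp.2 h2
      linarith
    · intro z _
      rw [norm_zero]
      linarith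
  · push Not at h
    have hne : ∀ z ∈ Metric.ball s (ε * r), D z ≠ 0 := by
      intro z hz h0
      have := h z hz
      rw [h0, norm_zero] at this
      linarith
    have hb : ∀ z ∈ Metric.ball s (ε * r), ‖(D z)⁻¹‖ < Real.exp (1 + 4 * ε * Real.exp ε) + 1 := by
      intro z hz
      have h1 := h z hz
      rw [norm_inv]
      have h2 : ‖D z‖⁻¹ ≤ 1 := inv_le_one_of_one_le₀ h1.le
      linarith
    refine ⟨fun z => (D z)⁻¹, fun z => -(D z)⁻¹, ?_, ?_, ?_, hb, ?_⟩
    · exact D_diff.differentiableOn.inv hne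
    · exact (D_diff.differentiableOn.inv hne).neg
    · intro z hz
      have h1 := gg_mul z
      have h2 := hne z hz
      field_simp
      rw [mul_comm]
      rw [h1]
      ring
    · intro z hz
      rw [norm_neg]
      exact hb z hz

/-- No global representation. -/
theorem global_aux (v1 v2 : ℂ → ℂ) (hv1 : Differentiable ℂ v1)
    (N1 N2 : ℕ) (C1 C2 : ℝ) (hC1 : ∀ z, dl z ^ N1 * ‖v1 z‖ ≤ C1)
    (hC2 : ∀ z, dl z ^ N2 * ‖v2 z‖ ≤ C2)
    (hg : ∀ z, gg z = v1 z * exp (-exp z) + v2 z * exp (-exp (I * z))) : False := by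
  have hC1' : 0 ≤ C1 := le_trans (mul_nonneg (pow_nonneg (dl_pos 0).le _) (norm_nonneg _)) (hC1 0)
  have hC2' : 0 ≤ C2 := le_trans (mul_nonneg (pow_nonneg (dl_pos 0).le _) (norm_nonneg _)) (hC2 0)
  -- the entire function h
  have hh : ∀ z, (1 - D z * v1 z) * exp (exp (I * z)) = (1 + D z * v2 z) * exp (exp z) := by
    intro z
    have h1 := gg_mul z
    rw [hg z] at h1
    have e1 : exp (-exp z) * exp (exp z) = 1 := by rw [← Complex.exp_add]; simp
    have e2 : exp (-exp (I * z)) * exp (exp (I * z)) = 1 := by rw [← Complex.exp_add]; simp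
    have h2 : (1 - D z * v1 z) * exp (-exp z) = (1 + D z * v2 z) * exp (-exp (I * z)) := by
      linear_combination -h1
    calc (1 - D z * v1 z) * exp (exp (I * z))
        = (1 - D z * v1 z) * exp (-exp z) * (exp (exp z) * exp (exp (I * z))) := by
          linear_combination (-(1 - D z * v1 z) * exp (exp (I * z))) * e1
      _ = (1 + D z * v2 z) * exp (-exp (I * z)) * (exp (exp z) * exp (exp (I * z))) := by rw [h2]
      _ = (1 + D z * v2 z) * exp (exp z) := by
          linear_combination ((1 + D z * v2 z) * exp (exp z)) * e2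
  set N := N1 + N2 with hN
  -- main estimate at the points
  have key : ∀ k : ℕ, Real.exp (Real.exp (2 * Real.pi * k)) ≤
      1 + 2 * Real.exp (4 * Real.pi * k + Real.pi) *
        ((C1 + C2) * Real.exp (4 * Real.pi * k + Real.pi) ^ N) := by
    intro k
    have hpi := Real.pi_pos
    have hk : (0:ℝ) ≤ k := Nat.cast_nonneg k
    set E := Real.exp (4 * Real.pi * k + Real.pi) with hE
    have hE1 : 1 ≤ E := Real.one_le_exp (by positivity)
    set x0 : ℝ := 2 * Real.pi * k with hx0
    have hx0' : 0 ≤ x0 := by positivity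
    set U : Set ℂ := Set.Ioo (x0 - Real.pi / 2) (x0 + Real.pi / 2) ×ℂ
      Set.Ioo (-x0 - Real.pi / 2) (-x0 + Real.pi / 2) with hU
    have hUb : Bornology.IsBounded U :=
      Bornology.IsBounded.reProdIm (Metric.isBounded_Ioo _ _) (Metric.isBounded_Ioo _ _)
    have hdiff : Differentiable ℂ (fun z => (1 - D z * v1 z) * exp (exp (I * z))) := by
      have := D_diff
      fun_prop
    have hfr : ∀ z ∈ frontier U, ‖(1 - D z * v1 z) * exp (exp (I * z))‖ ≤
        1 + 2 * E * ((C1 + C2) * E ^ N) := by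
      intro z hz
      rw [hU, Complex.frontier_reProdIm, closure_Ioo (by linarith), closure_Ioo (by linarith),
        frontier_Ioo (by linarith), frontier_Ioo (by linarith)] at hz
      have hxy : z.re ∈ Set.Icc (x0 - Real.pi / 2) (x0 + Real.pi / 2) ∧
          z.im ∈ Set.Icc (-x0 - Real.pi / 2) (-x0 + Real.pi / 2) := by
        rcases hz with hz | hz
        · rw [Complex.mem_reProdIm] at hz
          refine ⟨hz.1, ?_⟩
          rcases hz.2 with h | h
          · rw [h]; constructor <;> linarith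
          · rw [Set.mem_singleton_iff] at h
            rw [h]; constructor <;> linarith
        · rw [Complex.mem_reProdIm] at hz
          refine ⟨?_, hz.2⟩
          rcases hz.1 with h | h
          · rw [h]; constructor <;> linarith
          · rw [Set.mem_singleton_iff] at h
            rw [h]; constructor <;> linarith
      obtain ⟨⟨hx1, hx2⟩, ⟨hy1, hy2⟩⟩ := hxy
      have hcx : 0 ≤ Real.cos z.re := by
        have h1 : Real.cos z.re = Real.cos (z.re - k * (2 * Real.pi)) := by
          rw [Real.cos_sub_nat_mul_two_pi]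
        rw [h1]
        apply Real.cos_nonneg_of_mem_Icc
        constructor <;> nlinarith
      have hcy : 0 ≤ Real.cos z.im := by
        have h1 : Real.cos z.im = Real.cos (z.im + k * (2 * Real.pi)) := by
          rw [Real.cos_add_nat_mul_two_pi]
        rw [h1]
        apply Real.cos_nonneg_of_mem_Icc
        constructor <;> nlinarith
      have hze : z = z.re + z.im * I := (Complex.re_add_im z).symm
      have hA : (exp z).re = Real.exp z.re * Real.cos z.im := Complex.exp_re z
      have hB : (exp (I * z)).re = Real.exp (-z.im) * Real.cos z.re := by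
        rw [Complex.exp_re]
        simp
      have hT : 0 ≤ T z := by
        unfold T
        rw [hA, hB]
        exact le_min (by positivity) (by positivity)
      have hnz : ‖z‖ ≤ 4 * Real.pi * k + Real.pi := by
        refine le_trans (Complex.norm_le_abs_re_add_abs_im z) ?_
        have h1 : |z.re| ≤ x0 + Real.pi / 2 := abs_le.2 ⟨by linarith, hx2⟩
        have h2 : |z.im| ≤ x0 + Real.pi / 2 := abs_le.2 ⟨by linarith, by linarith⟩
        have h3 : 4 * Real.pi * k = x0 + x0 := by rw [hx0]; ring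
        linarith
      have hdl : dl z = Real.exp (-‖z‖) := by
        unfold dl
        rw [min_eq_left hT, add_zero]
      have hdlE : 1 ≤ dl z * E := by
        rw [hdl, hE, ← Real.exp_add]
        exact Real.one_le_exp (by linarith)
      have hdl0 := dl_pos z
      have hv : ∀ (v : ℂ → ℂ) (n : ℕ) (C : ℝ), 0 ≤ C → n ≤ N → C ≤ C1 + C2 →
          dl z ^ n * ‖v z‖ ≤ C → ‖v z‖ ≤ (C1 + C2) * E ^ N := by
        intro v n C hC hn hCC hb
        have h1 : 1 ≤ (dl z * E) ^ n := one_le_pow₀ hdlE
        calc ‖v z‖ ≤ (dl z * E) ^ n * ‖v z‖ := le_mul_of_one_le_left (norm_nonneg _) h1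
          _ = (dl z ^ n * ‖v z‖) * E ^ n := by rw [mul_pow]; ring
          _ ≤ C * E ^ n := by gcongr
          _ ≤ (C1 + C2) * E ^ N := by gcongr
      have hb1 := hv v1 N1 C1 hC1' (by omega) (by linarith) (hC1 z)
      have hb2 := hv v2 N2 C2 hC2' (by omega) (by linarith) (hC2 z)
      have hD : ‖D z‖ ≤ 2 * E := by
        unfold D
        refine le_trans (norm_sub_le _ _) ?_
        rw [Complex.norm_exp, Complex.norm_exp]
        have h1 : Real.exp z.re ≤ E := by
          rw [hE]; apply Real.exp_le_exp.2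
          exact le_trans (Complex.re_le_norm z) hnz
        have h2 : Real.exp (I * z).re ≤ E := by
          rw [hE]; apply Real.exp_le_exp.2
          refine le_trans (Complex.re_le_norm _) ?_
          simpa using hnz
        linarith
      have hfin : ∀ (v : ℂ → ℂ) (c : ℂ), ‖v z‖ ≤ (C1 + C2) * E ^ N → ‖c‖ = 1 →
          ‖(1 + D z * (c * v z))‖ ≤ 1 + 2 * E * ((C1 + C2) * E ^ N) := by
        intro v c hb hc
        refine le_trans (norm_add_le _ _) ?_
        rw [norm_one, norm_mul, norm_mul, hc, one_mul]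
        gcongr
      rcases hz with hz | hz
      · -- horizontal sides
        rw [Complex.mem_reProdIm] at hz
        have hcy0 : Real.cos z.im = 0 := by
          rcases hz.2 with h | h
          · have h1 : Real.cos z.im = Real.cos (z.im + k * (2 * Real.pi)) := by
              rw [Real.cos_add_nat_mul_two_pi]
            rw [h1, h, hx0]
            have : -(2 * Real.pi * (k:ℝ)) - Real.pi / 2 + k * (2 * Real.pi) = -(Real.pi / 2) := by
              ring
            rw [this, Real.cos_neg, Real.cos_pi_div_two]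
          · rw [Set.mem_singleton_iff] at h
            have h1 : Real.cos z.im = Real.cos (z.im + k * (2 * Real.pi)) := by
              rw [Real.cos_add_nat_mul_two_pi]
            rw [h1, h, hx0]
            have : -(2 * Real.pi * (k:ℝ)) + Real.pi / 2 + k * (2 * Real.pi) = Real.pi / 2 := by
              ring
            rw [this, Real.cos_pi_div_two]
        rw [hh z, norm_mul, Complex.norm_exp, hA, hcy0, mul_zero, Real.exp_zero, mul_one]
        have := hfin v2 1 hb2 norm_one
        rwa [one_mul] at this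
      · -- vertical sides
        rw [Complex.mem_reProdIm] at hz
        have hcx0 : Real.cos z.re = 0 := by
          have h1 : Real.cos z.re = Real.cos (z.re - k * (2 * Real.pi)) := by
            rw [Real.cos_sub_nat_mul_two_pi]
          rcases hz.1 with h | h
          · rw [h1, h, hx0]
            have : 2 * Real.pi * (k:ℝ) - Real.pi / 2 - k * (2 * Real.pi) = -(Real.pi / 2) := by
              ring
            rw [this, Real.cos_neg, Real.cos_pi_div_two]
          · rw [Set.mem_singleton_iff] at h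
            rw [h1, h, hx0]
            have : 2 * Real.pi * (k:ℝ) + Real.pi / 2 - k * (2 * Real.pi) = Real.pi / 2 := by
              ring
            rw [this, Real.cos_pi_div_two]
        rw [norm_mul, Complex.norm_exp, hB, hcx0, mul_zero, Real.exp_zero, mul_one]
        have := hfin v1 (-1) hb1 (by simp)
        have e3 : 1 + D z * (-1 * v1 z) = 1 - D z * v1 z := by ring
        rwa [e3] at this
    set zk : ℂ := x0 - x0 * I with hzk
    have hre : zk.re = x0 := by simp [hzk]
    have him : zk.im = -x0 := by simp [hzk]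
    have hmem : zk ∈ closure U := by
      apply subset_closure
      rw [hU, Complex.mem_reProdIm, hre, him]
      constructor <;> constructor <;> linarith
    have h1 := Complex.norm_le_of_forall_mem_frontier_norm_le hUb hdiff.diffContOnCl hfr hmem
    have hperiod : exp ((x0 : ℂ) * I) = 1 := by
      have : (x0 : ℂ) * I = k * (2 * Real.pi * I) := by
        rw [hx0]; push_cast; ring
      rw [this]
      exact Complex.exp_nat_mul_two_pi_mul_I k
    have hez : exp zk = Real.exp x0 := by
      rw [hzk, Complex.exp_sub, hperiod, div_one, Complex.ofReal_exp]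
    have heI : exp (I * zk) = Real.exp x0 := by
      have : I * zk = x0 * I + x0 := by
        rw [hzk]
        linear_combination (-(x0 : ℂ)) * I_mul_I
      rw [this, Complex.exp_add, hperiod, one_mul, Complex.ofReal_exp]
    have hD0 : D zk = 0 := by
      unfold D
      rw [hez, heI, sub_self]
    rw [hD0, zero_mul, sub_zero, one_mul, heI, Complex.norm_exp, Complex.ofReal_re] at h1
    exact h1
  -- growth contradiction
  set c0 : ℝ := 1 + 2 * (C1 + C2) * Real.exp Real.pi ^ (N + 1) with hc0
  have htend : Filter.Tendsto (fun k : ℕ => Real.exp (2 * Real.pi * k)) Filter.atTop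
      Filter.atTop := by
    apply Real.tendsto_exp_atTop.comp
    apply Filter.Tendsto.const_mul_atTop (by positivity)
    exact tendsto_natCast_atTop_atTop
  have h1 := (Real.tendsto_exp_div_pow_atTop (2 * (N + 1))).comp htend
  obtain ⟨k, hk⟩ := (h1.eventually_gt_atTop c0).exists
  simp only [Function.comp_apply] at hk
  have hk2 := key k
  set t := Real.exp (2 * Real.pi * k) with ht
  have ht1 : 1 ≤ t := Real.one_le_exp (by positivity)
  have ht0 : 0 < t ^ (2 * (N + 1)) := by positivity
  have hE : Real.exp (4 * Real.pi * k + Real.pi) = Real.exp Real.pi * t ^ 2 := by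
    rw [ht, ← Real.exp_nat_mul, ← Real.exp_add]
    congr 1
    push_cast
    ring
  rw [hE] at hk2
  rw [lt_div_iff₀ ht0] at hk
  have h3 : 1 ≤ t ^ (2 * (N + 1)) := one_le_pow₀ ht1
  have h4 : 2 * (Real.exp Real.pi * t ^ 2) * ((C1 + C2) * (Real.exp Real.pi * t ^ 2) ^ N) =
      2 * (C1 + C2) * Real.exp Real.pi ^ (N + 1) * t ^ (2 * (N + 1)) := by
    rw [mul_pow, pow_mul t 2 (N + 1), pow_succ (t ^ 2) N, pow_succ (Real.exp Real.pi) N]
    ring
  rw [h4] at hk2
  rw [hc0] at hk
  nlinarith


end Pool.Agent.Work.MP_6079fc_an
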