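import Pool.Agent.Work.MP_6079fc_an.Fun
import Pool.Agent.Work.MP_6079fc_an.Defs

/-!
# The weight on `ℂⁿ`, local membership with bounds, no global membership
-/

set_option autoImplicit false

namespace Pool.Agent.Work.MP_6079fc_an

open Filter Topology

variable {n : ℕ}

/-- The weight. -/
noncomputable def wt (i₀ : Fin n) (s : EuclideanSpace ℂ (Fin n)) : ℝ :=
  Real.exp (-‖s‖ + min 0 (T (s i₀)))

theorem coord_le (i₀ : Fin n) (s : EuclideanSpace ℂ (Fin n)) : ‖s i₀‖ ≤ ‖s‖ :=
  PiLp.norm_apply_le s i₀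

theorem coord_diff (i₀ : Fin n) : Differentiable ℂ (fun s : EuclideanSpace ℂ (Fin n) => s i₀) :=
  (EuclideanSpace.proj i₀ : EuclideanSpace ℂ (Fin n) →L[ℂ] ℂ).differentiable

theorem wt_pos (i₀ : Fin n) (s : EuclideanSpace ℂ (Fin n)) : 0 < wt i₀ s := Real.exp_pos _

theorem wt_le (i₀ : Fin n) (s : EuclideanSpace ℂ (Fin n)) : wt i₀ s ≤ Real.exp (-‖s‖) := by
  unfold wt
  apply Real.exp_le_exp.2
  have : min 0 (T (s i₀)) ≤ 0 := min_le_left _ _
  linarith

theorem wt_le_dl (i₀ : Fin n) (s : EuclideanSpace ℂ (Fin n)) : wt i₀ s ≤ dl (s i₀) := by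
  unfold wt dl
  apply Real.exp_le_exp.2
  have := coord_le i₀ s
  linarith

theorem wt_le' (i₀ : Fin n) (s : EuclideanSpace ℂ (Fin n)) : wt i₀ s ≤ Real.exp (-‖s i₀‖) :=
  (wt_le_dl i₀ s).trans (dl_le _)

theorem wt_le_one (i₀ : Fin n) (s : EuclideanSpace ℂ (Fin n)) : wt i₀ s ≤ 1 :=
  (wt_le i₀ s).trans (Real.exp_le_one_iff.2 (by simp))

theorem wt_lip (i₀ : Fin n) (z w : EuclideanSpace ℂ (Fin n)) :
    |wt i₀ z - wt i₀ w| ≤ 2 * ‖z - w‖ := by
  wlog hzw : ‖z‖ ≤ ‖w‖ with H
  · rw [abs_sub_comm, norm_sub_rev]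
    exact H i₀ w z (le_of_lt (not_le.1 hzw))
  · unfold wt
    rw [Real.exp_add, Real.exp_add]
    have e1 : |Real.exp (-‖z‖) - Real.exp (-‖w‖)| ≤ ‖z - w‖ := by
      refine le_trans (real_exp_lip (by simp) (by simp)) ?_
      have := abs_norm_sub_norm_le z w
      rw [abs_sub_comm] at this
      calc |-‖z‖ - -‖w‖| = |‖w‖ - ‖z‖| := by congr 1; ring
        _ ≤ _ := this
    have hzw' : ‖z i₀ - w i₀‖ ≤ ‖z - w‖ := coord_le i₀ (z - w)
    have e2 : |Real.exp (min 0 (T (z i₀))) - Real.exp (min 0 (T (w i₀)))| ≤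
        Real.exp ‖w‖ * ‖z - w‖ := by
      refine le_trans (real_exp_lip (min_le_left _ _) (min_le_left _ _)) ?_
      refine le_trans (abs_min_sub_min_le_max _ _ _ _) ?_
      have h1 := T_lip ((coord_le i₀ z).trans hzw) (coord_le i₀ w)
      simp only [sub_self, abs_zero]
      refine max_le (by positivity) (h1.trans ?_)
      gcongr
    have e3 : 0 < Real.exp (min 0 (T (z i₀))) := Real.exp_pos _
    have e4 : Real.exp (min 0 (T (z i₀))) ≤ 1 := Real.exp_le_one_iff.2 (min_le_left _ _)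
    have e5 : Real.exp (-‖w‖) * Real.exp ‖w‖ = 1 := by rw [← Real.exp_add]; simp
    have e6 : 0 < Real.exp (-‖w‖) := Real.exp_pos _
    calc |Real.exp (-‖z‖) * Real.exp (min 0 (T (z i₀))) -
          Real.exp (-‖w‖) * Real.exp (min 0 (T (w i₀)))|
        = |(Real.exp (-‖z‖) - Real.exp (-‖w‖)) * Real.exp (min 0 (T (z i₀))) +
          Real.exp (-‖w‖) * (Real.exp (min 0 (T (z i₀))) - Real.exp (min 0 (T (w i₀))))| := by
            congr 1; ring
      _ ≤ |(Real.exp (-‖z‖) - Real.exp (-‖w‖)) * Real.exp (min 0 (T (z i₀)))| +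
          |Real.exp (-‖w‖) * (Real.exp (min 0 (T (z i₀))) - Real.exp (min 0 (T (w i₀))))| :=
            abs_add_le _ _
      _ = |Real.exp (-‖z‖) - Real.exp (-‖w‖)| * Real.exp (min 0 (T (z i₀))) +
          Real.exp (-‖w‖) * |Real.exp (min 0 (T (z i₀))) - Real.exp (min 0 (T (w i₀)))| := by
            rw [abs_mul, abs_mul, abs_of_pos e3, abs_of_pos e6]
      _ ≤ ‖z - w‖ * 1 + Real.exp (-‖w‖) * (Real.exp ‖w‖ * ‖z - w‖) := by gcongr
      _ = 2 * ‖z - w‖ := by rw [← mul_assoc, e5]; ring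

theorem mean_vec {E : Type*} [NormedAddCommGroup E] [NormedSpace ℂ E] [CompleteSpace E] (a b : E) :
    ∫ θ in (0:ℝ)..(2 * Real.pi), (a + Complex.exp ((θ : ℂ) * Complex.I) • b) =
      (2 * Real.pi : ℝ) • a := by
  have hG : Differentiable ℂ (fun ζ : ℂ => a + ζ • b) := by fun_prop
  have h := DiffContOnCl.circleAverage (f := fun ζ : ℂ => a + ζ • b) (c := 0) (R := 1)
    hG.diffContOnCl
  rw [Real.circleAverage_def] at h
  simp only [circleMap, zero_add, Complex.ofReal_one, one_mul, zero_smul, add_zero] at h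
  have hpi : (2 * Real.pi : ℝ) ≠ 0 := by positivity
  have h2 := congrArg (fun x => (2 * Real.pi : ℝ) • x) h
  simp only [smul_smul, mul_inv_cancel₀ hpi, one_smul] at h2
  exact h2

theorem wt_psh (i₀ : Fin n) (a b : EuclideanSpace ℂ (Fin n)) :
    -Real.log (wt i₀ a) ≤ Real.circleAverage (fun ζ : ℂ => -Real.log (wt i₀ (a + ζ • b))) 0 1 := by
  have hlog : ∀ s, -Real.log (wt i₀ s) = ‖s‖ - min 0 (T (s i₀)) := by
    intro s
    unfold wt
    rw [Real.log_exp]
    ring
  simp only [hlog]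
  rw [Real.circleAverage_def]
  simp only [circleMap, zero_add, Complex.ofReal_one, one_mul]
  have hpi : (0:ℝ) < 2 * Real.pi := by positivity
  have hc : Continuous fun θ : ℝ => a + Complex.exp ((θ : ℂ) * Complex.I) • b := by fun_prop
  have hTc := T_cont
  have hc0 : Continuous fun θ : ℝ => (a + Complex.exp ((θ : ℂ) * Complex.I) • b) i₀ :=
    (coord_diff i₀).continuous.comp hc
  have hcoord : ∀ ζ : ℂ, (a + ζ • b) i₀ = a i₀ + ζ * b i₀ := fun ζ => rfl
  rw [intervalIntegral.integral_sub (hc.norm.intervalIntegrable _ _)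
    ((by fun_prop : Continuous fun θ : ℝ =>
      min 0 (T ((a + Complex.exp ((θ : ℂ) * Complex.I) • b) i₀))).intervalIntegrable _ _)]
  rw [smul_eq_mul, inv_mul_eq_div, le_div_iff₀ hpi]
  have h1 : 2 * Real.pi * ‖a‖ ≤ ∫ θ in (0:ℝ)..(2 * Real.pi), ‖a + Complex.exp ((θ : ℂ) * Complex.I) • b‖ := by
    have h2 : ‖(2 * Real.pi : ℝ) • a‖ = 2 * Real.pi * ‖a‖ := by
      rw [norm_smul, Real.norm_eq_abs, abs_of_pos hpi]
    rw [← h2, ← mean_vec a b]
    exact intervalIntegral.norm_integral_le_integral_norm hpi.le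
  have h3 := psh_two (a i₀) (b i₀)
  simp only [hcoord]
  linarith

theorem wt_isWeight (i₀ : Fin n) : IsWeight (wt i₀) where
  nonneg s := (wt_pos i₀ s).le
  lipschitz := ⟨2, by
    apply LipschitzWith.of_dist_le_mul
    intro s t
    rw [Real.dist_eq, dist_eq_norm]
    exact wt_lip i₀ s t⟩
  lim := by
    refine squeeze_zero (fun s => (wt_pos i₀ s).le) (fun s => wt_le i₀ s) ?_
    exact Real.tendsto_exp_neg_atTop_nhds_zero.comp tendsto_norm_cocompact_atTop
  bdd := ⟨1, fun s => by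
    have h2 : ‖s‖ * Real.exp (-‖s‖) ≤ 1 := by
      rw [Real.exp_neg, ← div_eq_mul_inv, div_le_one (Real.exp_pos _)]
      have := Real.add_one_le_exp ‖s‖
      linarith
    calc ‖s‖ * wt i₀ s ≤ ‖s‖ * Real.exp (-‖s‖) := by
          have := wt_le i₀ s
          gcongr
      _ ≤ 1 := h2⟩
  psh a b _ := wt_psh i₀ a b

theorem main (n q k : ℕ) (hn : 1 ≤ n) (hq : 1 ≤ q) (hk : 2 ≤ k) :
    ∃ (δ : EuclideanSpace ℂ (Fin n) → ℝ) (f : Fin k → Fin q → EuclideanSpace ℂ (Fin n) → ℂ)
      (g : Fin q → EuclideanSpace ℂ (Fin n) → ℂ),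
      IsWeight δ ∧ (∀ s, 0 < δ s) ∧ (∀ i j, MemO δ (f i j)) ∧ (∀ i j s, f i j s ≠ 0) ∧
      (∀ j, MemO δ (g j)) ∧
      (∀ ε : ℝ, 0 < ε → ∃ M : ℝ, ∀ s, ∃ u : Fin k → EuclideanSpace ℂ (Fin n) → ℂ,
        (∀ i, DifferentiableOn ℂ (u i) (Metric.ball s (ε * δ s))) ∧
        (∀ i, ∀ z ∈ Metric.ball s (ε * δ s), ‖u i z‖ < M) ∧
        ∀ j, ∀ z ∈ Metric.ball s (ε * δ s), g j z = ∑ i, u i z * f i j z) ∧
      ¬ ∃ v : Fin k → EuclideanSpace ℂ (Fin n) → ℂ,
        (∀ i, MemO δ (v i)) ∧ ∀ j s, g j s = ∑ i, v i s * f i j s := by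
  classical
  set i₀ : Fin n := ⟨0, hn⟩
  set k₀ : Fin k := ⟨0, by omega⟩ with hk₀
  set k₁ : Fin k := ⟨1, by omega⟩ with hk₁
  have hk01 : k₁ ≠ k₀ := by
    intro h
    rw [hk₀, hk₁, Fin.mk.injEq] at h
    exact absurd h one_ne_zero
  have hset : {s : EuclideanSpace ℂ (Fin n) | 0 < wt i₀ s} = Set.univ := by
    ext s
    simp [wt_pos i₀ s]
  set F1 : EuclideanSpace ℂ (Fin n) → ℂ := fun s => Complex.exp (-Complex.exp (s i₀)) with hF1
  set F2 : EuclideanSpace ℂ (Fin n) → ℂ := fun s => Complex.exp (-Complex.exp (Complex.I * s i₀))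
    with hF2
  have hsum : ∀ (w : Fin k → ℂ) (s : EuclideanSpace ℂ (Fin n)),
      ∑ i, w i * (if i = k₀ then F1 s else F2 s) =
        w k₀ * F1 s + (∑ i ∈ Finset.univ.erase k₀, w i) * F2 s := by
    intro w s
    rw [← Finset.add_sum_erase _ _ (Finset.mem_univ k₀), if_pos rfl, Finset.sum_mul]
    congr 1
    apply Finset.sum_congr rfl
    intro i hi
    rw [if_neg (Finset.ne_of_mem_erase hi)]
  refine ⟨wt i₀, fun i _ s => if i = k₀ then F1 s else F2 s, fun _ s => gg (s i₀), wt_isWeight i₀,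
    wt_pos i₀, ?_, ?_, ?_, ?_, ?_⟩
  · intro i _
    refine ⟨?_, 1, 1, fun s _ => ?_⟩
    · rw [hset, differentiableOn_univ]
      by_cases h : i = k₀
      · simp only [h, if_true]
        exact (by fun_prop : Differentiable ℂ fun z : ℂ =>
            Complex.exp (-Complex.exp z)).comp (coord_diff i₀)
      · simp only [h, if_false]
        exact (by fun_prop : Differentiable ℂ fun z : ℂ =>
            Complex.exp (-Complex.exp (Complex.I * z))).comp (coord_diff i₀)
    · rw [pow_one]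
      by_cases h : i = k₀
      · simp only [h, if_true]
        refine le_trans ?_ (f1_bound (s i₀))
        exact mul_le_mul_of_nonneg_right (wt_le_dl i₀ s) (norm_nonneg _)
      · simp only [h, if_false]
        refine le_trans ?_ (f2_bound (s i₀))
        exact mul_le_mul_of_nonneg_right (wt_le_dl i₀ s) (norm_nonneg _)
  · intro i _ s
    by_cases h : i = k₀
    · simp only [h, if_true]
      exact Complex.exp_ne_zero _
    · simp only [h, if_false]
      exact Complex.exp_ne_zero _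
  · intro _
    refine ⟨?_, 1, 2, fun s _ => ?_⟩
    · rw [hset, differentiableOn_univ]
      exact gg_diff.comp (coord_diff i₀)
    · rw [pow_one]
      refine le_trans ?_ (gg_bound (s i₀))
      exact mul_le_mul_of_nonneg_right (wt_le_dl i₀ s) (norm_nonneg _)
  · intro ε hε
    refine ⟨Real.exp (1 + 4 * ε * Real.exp ε) + 1, fun s => ?_⟩
    obtain ⟨u1, u2, h1, h2, h3, h4, h5⟩ := local_aux hε (s i₀) (wt_le' i₀ s)
    have hball : ∀ z ∈ Metric.ball s (ε * wt i₀ s), z i₀ ∈ Metric.ball (s i₀) (ε * wt i₀ s) := by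
      intro z hz
      rw [mem_ball_iff_norm] at hz ⊢
      exact lt_of_le_of_lt (coord_le i₀ (z - s)) hz
    refine ⟨fun i z => if i = k₀ then u1 (z i₀) else if i = k₁ then u2 (z i₀) else 0, ?_, ?_, ?_⟩
    · intro i
      by_cases h : i = k₀
      · simp only [h, if_true]
        exact h1.comp (coord_diff i₀).differentiableOn hball
      · by_cases h' : i = k₁
        · simp only [h', hk01, if_true, if_false]
          exact h2.comp (coord_diff i₀).differentiableOn hball
        · simp only [h, h', if_false]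
          exact differentiableOn_const _
    · intro i z hz
      by_cases h : i = k₀
      · simp only [h, if_true]
        exact h4 _ (hball z hz)
      · by_cases h' : i = k₁
        · simp only [h', hk01, if_true, if_false]
          exact h5 _ (hball z hz)
        · simp only [h, h', if_false, norm_zero]
          positivity
    · intro _ z hz
      show gg (z i₀) = ∑ i, (if i = k₀ then u1 (z i₀) else if i = k₁ then u2 (z i₀) else 0) *
        (if i = k₀ then F1 z else F2 z)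
      rw [hsum (fun i => if i = k₀ then u1 (z i₀) else if i = k₁ then u2 (z i₀) else 0) z]
      have h6 : ∑ i ∈ Finset.univ.erase k₀,
          (if i = k₀ then u1 (z i₀) else if i = k₁ then u2 (z i₀) else 0) = u2 (z i₀) := by
        rw [Finset.sum_eq_single k₁]
        · rw [if_neg hk01, if_pos rfl]
        · intro i hi hi'
          rw [if_neg (Finset.ne_of_mem_erase hi), if_neg hi']
        · intro h
          exact absurd (Finset.mem_erase.2 ⟨hk01, Finset.mem_univ _⟩) h
      rw [h6]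
      simp only [if_true]
      exact h3 _ (hball z hz)
  · rintro ⟨v, hv, hgv⟩
    let ι : ℂ → EuclideanSpace ℂ (Fin n) := fun ζ => ζ • EuclideanSpace.single i₀ (1 : ℂ)
    have hι : Differentiable ℂ ι := by
      intro ζ
      exact differentiableAt_id.smul_const _
    have hι0 : ∀ ζ, (ι ζ) i₀ = ζ := by
      intro ζ
      simp [ι]
    have hιn : ∀ ζ, ‖ι ζ‖ = ‖ζ‖ := by
      intro ζ
      simp [ι, norm_smul]
    have hιw : ∀ ζ, wt i₀ (ι ζ) = dl ζ := by
      intro ζ
      unfold wt dl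
      rw [hι0, hιn]
    choose hd hb using hv
    choose N C hb using hb
    rw [hset] at hd
    have hdl1 : ∀ z, dl z ≤ 1 := fun z => (dl_le z).trans (Real.exp_le_one_iff.2 (by simp))
    refine global_aux (fun ζ => v k₀ (ι ζ)) (fun ζ => ∑ i ∈ Finset.univ.erase k₀, v i (ι ζ))
      ((differentiableOn_univ.1 (hd k₀)).comp hι) (N k₀) (∑ i ∈ Finset.univ.erase k₀, N i) (C k₀)
      (∑ i ∈ Finset.univ.erase k₀, C i) ?_ ?_ ?_
    · intro z
      have := hb k₀ (ι z) (wt_pos _ _)
      rwa [hιw] at this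
    · intro z
      calc dl z ^ (∑ i ∈ Finset.univ.erase k₀, N i) * ‖∑ i ∈ Finset.univ.erase k₀, v i (ι z)‖
          ≤ dl z ^ (∑ i ∈ Finset.univ.erase k₀, N i) * ∑ i ∈ Finset.univ.erase k₀, ‖v i (ι z)‖ :=
            mul_le_mul_of_nonneg_left (norm_sum_le _ _) (pow_nonneg (dl_pos z).le _)
        _ = ∑ i ∈ Finset.univ.erase k₀, dl z ^ (∑ i ∈ Finset.univ.erase k₀, N i) * ‖v i (ι z)‖ :=
            Finset.mul_sum _ _ _
        _ ≤ ∑ i ∈ Finset.univ.erase k₀, C i := by
            apply Finset.sum_le_sum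
            intro i hi
            have h1 := hb i (ι z) (wt_pos _ _)
            rw [hιw] at h1
            refine le_trans ?_ h1
            apply mul_le_mul_of_nonneg_right _ (norm_nonneg _)
            exact pow_le_pow_of_le_one (dl_pos z).le (hdl1 z)
              (Finset.single_le_sum (f := N) (fun _ _ => Nat.zero_le _) hi)
    · intro z
      have h1 := hgv ⟨0, hq⟩ (ι z)
      rw [hsum (fun i => v i (ι z)) (ι z)] at h1
      simp only [hι0, hF1, hF2] at h1
      exact h1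

end Pool.Agent.Work.MP_6079fc_an
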